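import Pool.Agent.H31.EH.Targets
import Pool.Agent.H50.EST.SHP

/-!
# The good lines of other directions which cross a grid (helper52, row XCO of the board of helper31)
-/

set_option autoImplicit false

open Finset MeasureTheory

namespace Pool.Agent.H52.EH

open Pool.Agent.H24.CL Pool.Agent.H24.LV Pool.Agent.H26.ES Pool.Agent.H31.EH

/-- the crossings in one row -/
theorem row (hTO : T_TO) (hSH : T_SH) (hCO : L_CO) (k p D z : ℕ) (G₀ : Set (X k)) (m : ℝ)
    (hp : p.Prime) (hkp : k < p) (hDp : D.Coprime p)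
    (hC : CntM (H k p k) (H k p 1) G₀ m) (b : X k) (B : Finset ℕ)
    (hB : B ⊆ range (p * D)) (hz : ∀ x ∈ B, x % D = z)
    (h : ∀ x ∈ B, ∃ κ ∈ Kr k p (x % p), κ ∉ H k p 1 ∧ phi D (x % D) (b + κ) ∈ G₀) :
    (B.card : ℝ) ≤ k * m := by
  classical
  choose! kap hK hN hG using h
  let R : ℕ → X k := fun x => phi D z (b + kap x)
  have hRG : ∀ x ∈ B, R x ∈ G₀ := by
    intro x hx
    have := hG x hx
    rw [hz x hx] at this
    exact this
  have hkk : ∀ x ∈ B, kap x ∈ H k p k := fun x hx =>
    ((hTO k p hp.one_le).2.1 k _).1 (mem_filter.1 (hK x hx)).1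
  have hpk : ∀ x ∈ B, (p ^ k) • kap x = 0 := fun x hx => by
    have := hkk x hx
    exact this
  have hdif : ∀ x ∈ B, R x - phi D z b = phi D z (kap x) := by
    intro x hx
    show phi D z (b + kap x) - phi D z b = phi D z (kap x)
    rw [map_add, add_sub_cancel_left]
  have hdk : ∀ x ∈ B, phi D z (kap x) ∈ H k p k := by
    intro x hx
    show (p ^ k) • phi D z (kap x) = 0
    rw [← map_nsmul, hpk x hx, map_zero]
  have hd1 : ∀ x ∈ B, R x - phi D z b ∉ H k p 1 := by
    intro x hx hcon
    rw [hdif x hx] at hcon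
    have h1 : (p ^ 1) • phi D z (kap x) = 0 := hcon
    rw [← map_nsmul] at h1
    have h2 : (p ^ 1) • kap x = 0 := by
      refine hCO.2.2.1 k D z (p ^ k) _ (Nat.Coprime.pow_right k hDp) ?_ h1
      rw [smul_comm, hpk x hx, smul_zero]
    exact hN x hx h2
  have hcell : ∀ x ∈ B, phi p (x / D) (R x) = phi p (x / D) (phi D z b) := by
    intro x hx
    have h1 : phi p (x / D) (phi D z (kap x)) = 0 := by
      rw [hCO.1, ← hz x hx, Nat.mod_add_div, mul_comm, ← Nat.mod_add_div x p, ← hCO.1]
      have h2 : phi p (x % p) (kap x) = 0 := (mem_filter.1 (hK x hx)).2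
      rw [show (x % p + p * (x / p)) = x from Nat.mod_add_div x p, h2, map_zero]
    rw [← hdif x hx, map_sub, sub_eq_zero] at h1
    exact h1
  let cl : ℕ → X k ⧸ H k p 1 := fun x => QuotientAddGroup.mk (R x)
  have hrep : ∀ c ∈ B.image cl, ∃ x ∈ B, cl x = c := fun c hc => by
    obtain ⟨x, hx, h⟩ := mem_image.1 hc
    exact ⟨x, hx, h⟩
  choose! rep hrB hrc using hrep
  have hcl : ∀ x x' : ℕ, cl x = cl x' → R x - R x' ∈ H k p 1 := by
    intro x x' h
    have h1 := QuotientAddGroup.eq.1 h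
    have h2 : R x - R x' = -(-(R x) + R x') := by abel
    rw [h2]
    exact neg_mem h1
  have hcl' : ∀ x x' : ℕ, R x - R x' ∈ H k p 1 → cl x = cl x' := by
    intro x x' h
    refine QuotientAddGroup.eq.2 ?_
    have h2 : -(R x) + R x' = -(R x - R x') := by abel
    rw [h2]
    exact neg_mem h
  -- the number of the classes
  have hcard : ((B.image cl).card : ℝ) ≤ m := by
    have hinj : Set.InjOn (fun c => R (rep c)) (B.image cl : Finset _) := by
      intro c hc c' hc' h
      have e1 := hrc c hc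
      have e2 := hrc c' hc'
      rw [← e1, ← e2]
      refine hcl' _ _ ?_
      have h3 : R (rep c) = R (rep c') := h
      rw [h3, sub_self]
      exact zero_mem _
    rw [← card_image_of_injOn hinj]
    refine hC _ ?_ ?_ ?_
    · intro y hy
      obtain ⟨c, hc, rfl⟩ := mem_image.1 hy
      exact hRG _ (hrB c hc)
    · intro y hy y' hy'
      obtain ⟨c, hc, rfl⟩ := mem_image.1 hy
      obtain ⟨c', hc', rfl⟩ := mem_image.1 hy'
      have h5 : R (rep c) - R (rep c') = phi D z (kap (rep c)) - phi D z (kap (rep c')) := by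
        rw [← hdif _ (hrB c hc), ← hdif _ (hrB c' hc')]
        abel
      show R (rep c) - R (rep c') ∈ H k p k
      rw [h5]
      exact sub_mem (hdk _ (hrB c hc)) (hdk _ (hrB c' hc'))
    · intro y hy y' hy' hyy
      obtain ⟨c, hc, rfl⟩ := mem_image.1 hy
      obtain ⟨c', hc', rfl⟩ := mem_image.1 hy'
      have h6 := hcl' _ _ hyy
      rw [hrc c hc, hrc c' hc'] at h6
      rw [h6]
  -- every class has at most `k - 1` positions
  have hfib : ∀ c ∈ B.image cl, (B.filter fun x => cl x = c).card ≤ k - 1 := by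
    intro c hc
    have hinj : Set.InjOn (fun x => x / D) (B.filter fun x => cl x = c : Finset ℕ) := by
      intro x hx x' hx' h
      have e1 := hz x (mem_filter.1 hx).1
      have e2 := hz x' (mem_filter.1 hx').1
      have e3 : x / D = x' / D := h
      rw [← Nat.mod_add_div x D, ← Nat.mod_add_div x' D, e1, e2, e3]
    rw [← card_image_of_injOn hinj]
    refine Pool.Agent.H50.EST.shp_one hTO hSH hCO k p hp hkp (R (rep c)) (phi D z b) (hd1 _ (hrB c hc)) _ ?_ ?_
    · intro t ht
      obtain ⟨x, hx, rfl⟩ := mem_image.1 ht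
      have h1 := mem_range.1 (hB (mem_filter.1 hx).1)
      exact mem_range.2 (Nat.div_lt_of_lt_mul (by rw [mul_comm]; exact h1))
    · intro t ht
      obtain ⟨x, hx, rfl⟩ := mem_image.1 ht
      obtain ⟨hxB, hxc⟩ := mem_filter.1 hx
      have h7 : phi p (x / D) (R (rep c) - R x) = 0 :=
        hCO.2.1 k p _ _ (hcl _ _ ((hrc c hc).trans hxc.symm))
      rw [map_sub, sub_eq_zero] at h7
      show phi p (x / D) (R (rep c)) = phi p (x / D) (phi D z b)
      rw [h7, hcell x hxB]
  have h8 : B.card ≤ (k - 1) * (B.image cl).card :=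
    card_le_mul_card_image (f := cl) B (k - 1) (fun c hc => hfib c hc)
  have h9 : (B.card : ℝ) ≤ ((k - 1 : ℕ) : ℝ) * ((B.image cl).card : ℝ) := by exact_mod_cast h8
  have h10 : ((k - 1 : ℕ) : ℝ) ≤ k := by exact_mod_cast Nat.sub_le k 1
  have h11 : (0 : ℝ) ≤ ((B.image cl).card : ℝ) := Nat.cast_nonneg _
  calc (B.card : ℝ) ≤ ((k - 1 : ℕ) : ℝ) * ((B.image cl).card : ℝ) := h9
    _ ≤ k * ((B.image cl).card : ℝ) := mul_le_mul_of_nonneg_right h10 h11
    _ ≤ k * m := mul_le_mul_of_nonneg_left hcard (Nat.cast_nonneg _)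

/-- XCO -/
theorem pf_XCO (hTO : T_TO) (hSH : T_SH) (hCO : L_CO) : T_XCO := by
  classical
  intro k p D G₀ G m hk hp hkp hD hDp hm hC hsub b B hB h
  have h1 : B.card = ∑ z ∈ range D, (B.filter fun x => x % D = z).card :=
    card_eq_sum_card_fiberwise fun x _ => by
      exact mem_coe.2 (mem_range.2 (Nat.mod_lt _ hD))
  rw [h1, Nat.cast_sum]
  calc (∑ z ∈ range D, ((B.filter fun x => x % D = z).card : ℝ))
      ≤ ∑ z ∈ range D, (k * m : ℝ) := by
        refine sum_le_sum fun z _ => ?_
        refine row hTO hSH hCO k p D z G₀ m hp hkp hDp hC b _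
          ((filter_subset _ _).trans hB) (fun x hx => (mem_filter.1 hx).2) ?_
        intro x hx
        obtain ⟨κ, h2, h3, h4⟩ := h x (mem_filter.1 hx).1
        exact ⟨κ, h2, h3, hsub _ h4⟩
    _ = k * m * D := by
        rw [sum_const, card_range, nsmul_eq_mul]
        ring

end Pool.Agent.H52.EH
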